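import Pool.Agent.W477.GM.Stms

/-! # The name of the sequence is hereditarily symmetric -/

set_option maxHeartbeats 1000000

namespace Pool.Agent.W477.GM.W999S1

open Pool.Agent.W477.GM

section gen

variable {P : Type 1} [PartialOrder P] [OrderTop P]

theorem lab_top (q : P) : Lab (fun u => u = (⊤ : P)) q := ⟨⊤, rfl, le_top⟩

/-- equality of names with children that correspond to each other -/
theorem feq_of_child (h : EqF P) {ι : Type} (x y : ι → Nm P) (U : ι → P → Prop)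
    (hU : ∀ i u, U i u ↔ u = ⊤) (f g : ι → ι) (p : P)
    (hf : ∀ i, feq (x i) (y (f i)) p) (hg : ∀ i, feq (x (g i)) (y i) p) :
    feq (.mk ι U x) (.mk ι (fun _ u => u = ⊤) y) p := by
  have hlab : ∀ i q, Lab (U i) q := fun i q => ⟨⊤, (hU i ⊤).2 rfl, le_top⟩
  rw [feq]
  refine ⟨fun i q hq _ => ⟨q, le_rfl, f i, lab_top q, h.mono _ _ _ _ hq (hf i)⟩,
    fun i q hq _ => ⟨q, le_rfl, g i, hlab _ q, h.mono _ _ _ _ hq (hg i)⟩⟩

theorem prN_congr (h : EqF P) (x y x' y' : Nm P) (p : P) (hx : feq x x' p) (hy : feq y y' p) :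
    feq (prN x y) (prN x' y') p := by
  refine feq_of_child h _ _ _ (fun _ _ => Iff.rfl) id id p (fun b => ?_) (fun b => ?_) <;>
    cases b <;> assumption

theorem opN_congr (h : EqF P) (x y x' y' : Nm P) (p : P) (hx : feq x x' p) (hy : feq y y' p) :
    feq (opN x y) (opN x' y') p :=
  prN_congr h _ _ _ _ p (prN_congr h _ _ _ _ p hx hx) (prN_congr h _ _ _ _ p hx hy)

theorem symm_top (g : P ≃o P) (u : P) : g.symm u = ⊤ ↔ u = ⊤ := by
  rw [OrderIso.symm_apply_eq, g.map_top]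

end gen

section fl

variable {C : Type} {L : C → ℕ∞} [PartialOrder C] [OrderTop C]

theorem fl_len (w : J → Ordinal.{0} → Bool) (p : Cn C L) (j : J) : (fl w p).len j = p.len j := rfl

theorem fl_bit (w : J → Ordinal.{0} → Bool) (p : Cn C L) (j : J) (o : Ordinal.{0})
    (ho : o < p.len j) : (fl w p).bit j o = xor (p.bit j o) (w j o) := if_pos ho

theorem fl_fl (w : J → Ordinal.{0} → Bool) (p : Cn C L) : fl w (fl w p) = p := by
  refine Cn.ext' rfl (fun j => rfl) (fun j o ho => ?_)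
  have ho' : o < p.len j := ho
  rw [fl_bit w (fl w p) j o ho, fl_bit w p j o ho']
  cases p.bit j o <;> cases w j o <;> rfl

theorem symm_fl (g : Cn C L ≃o Cn C L) (w : J → Ordinal.{0} → Bool) (hg : ∀ p, g p = fl w p)
    (p : Cn C L) : g.symm p = fl w p := by
  rw [OrderIso.symm_apply_eq, hg, fl_fl]

end fl

theorem act_xN (h1 : ActF PP) (hS : SysAx SP) (on : Ordinal.{0} → PSet.{0}) (β : Ordinal.{0})
    (n : ℕ) (s : Bool) (z : Ib β → Bool) (g : PP ≃o PP) (w : J → Ordinal.{0} → Bool)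
    (hw : FinS w) (hg : ∀ p, g p = fl w p) :
    act g (xN on β n s z) = xN on β n s (fun i => xor (w (β, n, s) (ov i)) (z i)) := by
  unfold xN
  rw [act]
  have hch : (fun i : Ib β => act g (chk (on (ov i)) : Nm PP)) = fun i => chk (on (ov i)) :=
    funext fun i => h1.chk g _
  rw [hch]
  congr 1
  funext i p
  rw [symm_fl g w hg]
  have hG : g ∈ (SP).G := ⟨w, hw, hg⟩
  have hrs : rs (fun j => j.1 < β + 1) (fl w p) = fl w p ↔ rs (fun j => j.1 < β + 1) p = p := by
    rw [← hg]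
    have h2 := hS.rho_act g hG (β + 1) p
    change rs (fun j => j.1 < β + 1) (g p) = g (rs (fun j => j.1 < β + 1) p) at h2
    rw [h2]
    exact g.injective.eq_iff
  rw [hrs, fl_len]
  apply propext
  refine and_congr_right fun _ => and_congr_right fun ho => ?_
  rw [fl_bit w p _ _ ho, Bool.xor_assoc]

theorem hs_xN (h1 : ActF PP) (h : EqF PP) (hH : HsF PP SP) (hS : SysAx SP)
    (on : Ordinal.{0} → PSet.{0}) (β : Ordinal.{0}) (n : ℕ) (s : Bool) (z : Ib β → Bool) :
    HS SP (xN on β n s z) := by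
  have hsym : ∃ e, ∀ g, g ∈ (SP).fix e → ∀ p, feq (act g (xN on β n s z)) (xN on β n s z) p := by
    refine ⟨({(β, n)} : Finset (Ordinal.{0} × ℕ)), ?_⟩
    rintro g ⟨w, hw, hwe, hg⟩ p
    rw [act_xN h1 hS on β n s z g w hw hg]
    have h2 : (fun i : Ib β => xor (w (β, n, s) (ov i)) (z i)) = z := by
      funext i
      rw [hwe (β, n, s) (Finset.mem_singleton_self _), Bool.false_xor]
    rw [h2]
    exact h.refl _ _
  unfold xN at hsym ⊢
  rw [HS]
  exact ⟨⟨β + 1, fun i u hu => hu.1⟩, hsym, fun i => hH.chk _⟩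

theorem feq_act_aN (h : EqF PP) (h1 : ActF PP) (hS : SysAx SP) (on : Ordinal.{0} → PSet.{0})
    (β : Ordinal.{0}) (n : ℕ) (s : Bool) (g : PP ≃o PP) (w : J → Ordinal.{0} → Bool)
    (hw : FinS w) (hg : ∀ p, g p = fl w p) (p : PP) :
    feq (act g (aN on β n s)) (aN on β n s) p := by
  unfold aN
  rw [act]
  refine feq_of_child h _ _ _ (fun _ u => symm_top g u)
    (fun z i => xor (w (β, n, s) (ov i)) (z i)) (fun z i => xor (w (β, n, s) (ov i)) (z i)) p ?_ ?_
  · intro z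
    rw [act_xN h1 hS on β n s z g w hw hg]
    exact h.refl _ _
  · intro z
    rw [act_xN h1 hS on β n s _ g w hw hg]
    have h2 : (fun i : Ib β => xor (w (β, n, s) (ov i)) (xor (w (β, n, s) (ov i)) (z i))) = z := by
      funext i
      rw [← Bool.xor_assoc, Bool.xor_self, Bool.false_xor]
    rw [h2]
    exact h.refl _ _

theorem hs_aN (h : EqF PP) (h1 : ActF PP) (hH : HsF PP SP) (hS : SysAx SP)
    (on : Ordinal.{0} → PSet.{0}) (β : Ordinal.{0}) (n : ℕ) (s : Bool) :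
    HS SP (aN on β n s) := by
  have hsym : ∃ e, ∀ g, g ∈ (SP).fix e → ∀ p, feq (act g (aN on β n s)) (aN on β n s) p := by
    refine ⟨(∅ : Finset (Ordinal.{0} × ℕ)), ?_⟩
    rintro g ⟨w, hw, -, hg⟩ p
    exact feq_act_aN h h1 hS on β n s g w hw hg p
  unfold aN at hsym ⊢
  rw [HS]
  refine ⟨⟨0, fun i u hu => ?_⟩, hsym, fun z => hs_xN h1 h hH hS on β n s z⟩
  have hu' : u = ⊤ := hu
  rw [hu']
  exact hH.rtop 0

theorem seq1_holds (h : P_EQ) (h1 : P_ACT) (h3 : P_HS) (hc : P_CAX) (hk : P_KAP) (hs : P_SYSC) :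
    P_SEQ1 := by
  intro on β
  have hE : EqF PP := h PP
  have hA : ActF PP := h1 PP
  have hS : SysAx SP := hs hk Unit (fun _ => (⊤ : ℕ∞)) hc.1
  have hH : HsF PP SP := h3 PP SP hS
  have hsym : ∃ e, ∀ g, g ∈ (SP).fix e → ∀ p, feq (act g (sN on β)) (sN on β) p := by
    refine ⟨(∅ : Finset (Ordinal.{0} × ℕ)), ?_⟩
    rintro g ⟨w, hw, -, hg⟩ p
    unfold sN
    rw [act]
    have h4 : ∀ n : ℕ, feq (act g (opN (chk (PSet.ofNat n)) (aN on β n false)))
        (opN (chk (PSet.ofNat n)) (aN on β n false)) p := by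
      intro n
      rw [hA.op, hA.chk]
      exact opN_congr hE _ _ _ _ p (hE.refl _ _) (feq_act_aN hE hA hS on β n false g w hw hg p)
    exact feq_of_child hE _ _ _ (fun _ u => symm_top g u) id id p h4 h4
  unfold sN at hsym ⊢
  rw [HS]
  refine ⟨⟨0, fun i u hu => ?_⟩, hsym, fun n => hH.op _ _ (hH.chk _) (hs_aN hE hA hH hS on β n false)⟩
  have hu' : u = ⊤ := hu
  rw [hu']
  exact hH.rtop 0

end Pool.Agent.W477.GM.W999S1
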